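import Mathlib

/-!
# MP_c7e24e_co: the recombination space of a biconnected graph can be disconnected
even when the slack is an arbitrarily large multiple of `n / k`

The graph `G h`: `h` hubs; for every pair of hubs `a ≠ b` two paths with two inner vertices
joining them.  The inner vertices are the halves `(a, b, i)`, `a ≠ b`, `i : Bool`:
`(a, b, i)` is adjacent to the hub `a` and to its partner `(b, a, i)`.
With `2 k = h² + h`, `n = 2 h² - h` and slack `s = h - n / k` every `(k, s)`-BCP is tight: `h`
districts of size `h` with exactly one hub each, the other districts are the two inner vertices of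
a path.  In the partition `P j` the district of the hub `a` consists of `a` and the halves
`(a, b, j)`; it admits no recombination move.
-/

namespace Pool.Agent.Results.MP_c7e24e_co.LargeSlackDisconnected

open Finset

/-- `G` is biconnected: it is connected, has at least three vertices, and has no cut vertex
(deleting any vertex leaves a connected graph). -/
def Biconnected {V : Type} [Fintype V] (G : SimpleGraph V) : Prop :=
  G.Connected ∧ 3 ≤ Fintype.card V ∧ ∀ v : V, (G.induce ({v}ᶜ : Set V)).Connected

/-- `P` is a `(k, s)`-BCP of `G`: it has `k` (nonempty) parts, each part induces a connected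
subgraph, and each part `U` satisfies `| |U| - n / k | ≤ s`. -/
structure IsBCP {V : Type} [Fintype V] [DecidableEq V] (G : SimpleGraph V) (k : ℕ) (s : ℝ)
    (P : Finpartition (Finset.univ : Finset V)) : Prop where
  card_parts : P.parts.card = k
  conn : ∀ U ∈ P.parts, (G.induce (U : Set V)).Connected
  bal : ∀ U ∈ P.parts, |(U.card : ℝ) - (Fintype.card V : ℝ) / k| ≤ s

/-- `P` and `Q` are distinct and differ by merging two districts `A`, `B` of `P` and re-splitting
the union into two districts `C`, `D` of `Q`, all other districts being the same. -/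
def Recomb {V : Type} [Fintype V] [DecidableEq V]
    (P Q : Finpartition (Finset.univ : Finset V)) : Prop :=
  P ≠ Q ∧ ∃ A ∈ P.parts, ∃ B ∈ P.parts, A ≠ B ∧ ∃ C ∈ Q.parts, ∃ D ∈ Q.parts, C ≠ D ∧
    A ∪ B = C ∪ D ∧ P.parts \ {A, B} = Q.parts \ {C, D}

/-- The configuration space `R_s(G, k)`: its vertices are the `(k, s)`-BCPs of `G`, its edges are
the recombination moves. -/
def configGraph {V : Type} [Fintype V] [DecidableEq V] (G : SimpleGraph V) (k : ℕ) (s : ℝ) :
    SimpleGraph {P : Finpartition (Finset.univ : Finset V) // IsBCP G k s P} where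
  Adj P Q := Recomb P.1 Q.1
  symm := ⟨by
    rintro P Q ⟨hne, A, hA, B, hB, hAB, C, hC, D, hD, hCD, h1, h2⟩
    exact ⟨hne.symm, C, hC, D, hD, hCD, A, hA, B, hB, hAB, h1.symm, h2.symm⟩⟩
  loopless := ⟨fun _ h => h.1 rfl⟩

/-! ### General lemmas -/

theorem conn_closure {V : Type*} {G : SimpleGraph V} {U : Set V} (hU : (G.induce U).Connected)
    {S : Set V} {v : V} (hv : v ∈ U) (hvS : v ∈ S)
    (hcl : ∀ x ∈ U, x ∈ S → ∀ y ∈ U, G.Adj x y → y ∈ S) : U ⊆ S := by
  intro y hy
  have hr : (G.induce U).Reachable ⟨v, hv⟩ ⟨y, hy⟩ := hU.preconnected _ _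
  obtain ⟨w⟩ := hr
  have key : ∀ (a b : U), (G.induce U).Walk a b → a.1 ∈ S → b.1 ∈ S := by
    intro a b w
    induction w with
    | nil => exact id
    | cons hadj _ ih => intro ha; exact ih (hcl _ (Subtype.prop _) ha _ (Subtype.prop _) hadj)
  exact key _ _ w hvS

theorem star_conn {V : Type*} {G : SimpleGraph V} {U : Set V} {u : V} (hu : u ∈ U)
    (hst : ∀ x ∈ U, x = u ∨ G.Adj u x) : (G.induce U).Connected := by
  rw [SimpleGraph.connected_iff_exists_forall_reachable]
  refine ⟨⟨u, hu⟩, ?_⟩
  rintro ⟨x, hx⟩
  rcases hst x hx with rfl | h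
  · exact SimpleGraph.Reachable.refl _
  · exact SimpleGraph.Adj.reachable (by simpa using h)

/-! ### The graph -/

/-- Ordered pairs of distinct hubs. -/
abbrev E (h : ℕ) := {p : Fin h × Fin h // p.1 ≠ p.2}

/-- Vertices: hubs and halves. -/
abbrev W (h : ℕ) := Fin h ⊕ (E h × Bool)

/-- The reversed pair. -/
def sw {h : ℕ} (p : E h) : E h := ⟨(p.1.2, p.1.1), p.2.symm⟩

theorem sw_sw {h : ℕ} (p : E h) : sw (sw p) = p := rfl

theorem sw_ne {h : ℕ} (p : E h) : sw p ≠ p := by
  intro e
  have := congrArg (fun q : E h => q.1.1) e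
  simp only [sw] at this
  exact p.2 this.symm

/-- Adjacency. -/
def adj {h : ℕ} : W h → W h → Prop
  | Sum.inl a, Sum.inr x => x.1.1.1 = a
  | Sum.inr x, Sum.inl a => x.1.1.1 = a
  | Sum.inr x, Sum.inr y => y = (sw x.1, x.2)
  | Sum.inl _, Sum.inl _ => False

/-- The graph. -/
def G (h : ℕ) : SimpleGraph (W h) where
  Adj := adj
  symm := ⟨by
    rintro (a | x) (b | y) hxy
    · exact hxy
    · exact hxy
    · exact hxy
    · change y = (sw x.1, x.2) at hxy
      change x = (sw y.1, y.2)
      subst hxy
      rfl⟩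
  loopless := ⟨by
    rintro (a | x) hx
    · exact hx
    · change x = (sw x.1, x.2) at hx
      exact sw_ne x.1 (congrArg Prod.fst hx).symm⟩

theorem adj_hub {h : ℕ} (p : E h) (i : Bool) : (G h).Adj (Sum.inl p.1.1) (Sum.inr (p, i)) := rfl

theorem adj_partner {h : ℕ} (p : E h) (i : Bool) :
    (G h).Adj (Sum.inr (p, i)) (Sum.inr (sw p, i)) := rfl

theorem card_W (h : ℕ) : Fintype.card (W h) + h = 2 * (h * h) := by
  have hE : Fintype.card (E h) = h * h - h := by
    have : Fintype.card (E h) = ((Finset.univ : Finset (Fin h)).offDiag).card := by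
      rw [Fintype.card_subtype]
      congr 1
      ext p
      simp [Finset.mem_offDiag]
    rw [this, Finset.offDiag_card]
    simp
  have hle : h ≤ h * h := Nat.le_mul_self h
  simp only [W, Fintype.card_sum, Fintype.card_prod, Fintype.card_fin, Fintype.card_bool, hE]
  omega

/-- Deleting at most one vertex leaves a connected graph. -/
theorem conn_del {h : ℕ} (h2 : 2 ≤ h) (K : Set (W h)) (hK : ∀ x y, x ∉ K → y ∉ K → x = y) :
    ((G h).induce K).Connected := by
  classical
  let R : W h → W h → Prop := fun x y =>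
    ∃ (hx : x ∈ K) (hy : y ∈ K), ((G h).induce K).Reachable ⟨x, hx⟩ ⟨y, hy⟩
  have Rtrans : ∀ x y z, R x y → R y z → R x z := by
    rintro x y z ⟨hx, hy, h1⟩ ⟨_, hz, h2⟩
    exact ⟨hx, hz, h1.trans h2⟩
  have Rsymm : ∀ x y, R x y → R y x := by
    rintro x y ⟨hx, hy, h1⟩
    exact ⟨hy, hx, h1.symm⟩
  have Radj : ∀ x y, x ∈ K → y ∈ K → (G h).Adj x y → R x y := by
    intro x y hx hy hxy
    exact ⟨hx, hy, SimpleGraph.Adj.reachable (by simpa using hxy)⟩
  -- hubs are joined
  have hubs : ∀ a b : Fin h, Sum.inl a ∈ K → Sum.inl b ∈ K → R (Sum.inl a) (Sum.inl b) := by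
    intro a b ha hb
    by_cases hab : a = b
    · subst hab
      exact ⟨ha, ha, SimpleGraph.Reachable.refl _⟩
    · set p : E h := ⟨(a, b), hab⟩ with hp
      have hi : ∃ i : Bool, (Sum.inr (p, i) : W h) ∈ K ∧ (Sum.inr (sw p, i) : W h) ∈ K := by
        by_contra hcon
        push Not at hcon
        have hf := hcon false
        have ht := hcon true
        have h1 : ∃ q, (Sum.inr (q, false) : W h) ∉ K := by
          by_cases hq : (Sum.inr (p, false) : W h) ∈ K
          · exact ⟨_, hf hq⟩
          · exact ⟨_, hq⟩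
        have h2' : ∃ q, (Sum.inr (q, true) : W h) ∉ K := by
          by_cases hq : (Sum.inr (p, true) : W h) ∈ K
          · exact ⟨_, ht hq⟩
          · exact ⟨_, hq⟩
        obtain ⟨q, hq⟩ := h1
        obtain ⟨q', hq'⟩ := h2'
        have := hK _ _ hq hq'
        simp at this
      obtain ⟨i, h1, h2'⟩ := hi
      have s1 : R (Sum.inl a) (Sum.inr (p, i)) := Radj _ _ ha h1 (adj_hub p i)
      have s2 : R (Sum.inr (p, i)) (Sum.inr (sw p, i)) := Radj _ _ h1 h2' (adj_partner p i)
      have s3 : R (Sum.inl b) (Sum.inr (sw p, i)) := Radj _ _ hb h2' (adj_hub (sw p) i)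
      exact Rtrans _ _ _ s1 (Rtrans _ _ _ s2 (Rsymm _ _ s3))
  have toHub : ∀ x ∈ K, ∃ a : Fin h, R x (Sum.inl a) := by
    rintro (a | ⟨p, i⟩) hx
    · exact ⟨a, hx, hx, SimpleGraph.Reachable.refl _⟩
    · by_cases ha : (Sum.inl p.1.1 : W h) ∈ K
      · exact ⟨p.1.1, Rsymm _ _ (Radj _ _ ha hx (adj_hub p i))⟩
      · have h1 : (Sum.inr (sw p, i) : W h) ∈ K := by
          by_contra hc
          have := hK _ _ ha hc
          simp at this
        have h3 : (Sum.inl p.1.2 : W h) ∈ K := by
          by_contra hc
          have := hK _ _ ha hc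
          exact p.2 (Sum.inl_injective this)
        exact ⟨p.1.2, Rtrans _ _ _ (Radj _ _ hx h1 (adj_partner p i))
          (Rsymm _ _ (Radj _ _ h3 h1 (adj_hub (sw p) i)))⟩
  have hex : ∃ a : Fin h, (Sum.inl a : W h) ∈ K := by
    by_contra hcon
    push Not at hcon
    have := hK _ _ (hcon ⟨0, by omega⟩) (hcon ⟨1, by omega⟩)
    have := Sum.inl_injective this
    simp at this
  obtain ⟨a0, ha0⟩ := hex
  rw [SimpleGraph.connected_iff_exists_forall_reachable]
  refine ⟨⟨Sum.inl a0, ha0⟩, ?_⟩
  rintro ⟨x, hx⟩
  obtain ⟨a, ha⟩ := toHub x hx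
  obtain ⟨_, ha', _⟩ := id ha
  obtain ⟨_, _, hr⟩ := Rtrans _ _ _ (hubs a0 a ha0 ha') (Rsymm _ _ ha)
  exact hr

theorem biconn {h : ℕ} (h2 : 2 ≤ h) : Biconnected (G h) := by
  refine ⟨?_, ?_, ?_⟩
  · have := conn_del h2 Set.univ (fun x _ hx => absurd (Set.mem_univ x) hx)
    exact (SimpleGraph.induceUnivIso (G h)).connected_iff.1 this
  · have := card_W h
    nlinarith
  · intro v
    apply conn_del h2
    intro x y hx hy
    simp at hx hy
    rw [hx, hy]

/-! ### The partitions `P j` -/

/-- Labels of the vertices. -/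
def lab {h : ℕ} (j : Bool) : W h → Fin h ⊕ Sym2 (Fin h)
  | Sum.inl a => Sum.inl a
  | Sum.inr x => if x.2 = j then Sum.inl x.1.1.1 else Sum.inr s(x.1.1.1, x.1.1.2)

instance decLab (h : ℕ) (j : Bool) : DecidableRel (⇑(Setoid.ker (lab (h := h) j))) :=
  fun a b => decidable_of_iff (lab j a = lab j b) Iff.rfl

/-- The partition `P j`. -/
def P (h : ℕ) (j : Bool) : Finpartition (Finset.univ : Finset (W h)) :=
  Finpartition.ofSetoid (Setoid.ker (lab (h := h) j))

theorem mem_P {h : ℕ} {j : Bool} (v w : W h) : w ∈ (P h j).part v ↔ lab j v = lab j w := by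
  unfold P
  rw [Finpartition.mem_part_ofSetoid_iff_rel]
  rfl


theorem P_ext {h : ℕ} {Q Q' : Finpartition (Finset.univ : Finset (W h))}
    (hp : ∀ v, Q.part v = Q'.part v) : Q = Q' := by
  apply Finpartition.ext
  ext U
  constructor
  · intro hU
    obtain ⟨v, hv⟩ := Q.nonempty_of_mem_parts hU
    rw [← Q.part_eq_of_mem hU hv, hp]
    exact Q'.part_mem.2 (Finset.mem_univ v)
  · intro hU
    obtain ⟨v, hv⟩ := Q'.nonempty_of_mem_parts hU
    rw [← Q'.part_eq_of_mem hU hv, ← hp]
    exact Q.part_mem.2 (Finset.mem_univ v)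

theorem mem_own {h : ℕ} (Q : Finpartition (Finset.univ : Finset (W h))) (v : W h) :
    v ∈ Q.part v := Q.mem_part (Finset.mem_univ v)

theorem own_mem {h : ℕ} (Q : Finpartition (Finset.univ : Finset (W h))) (v : W h) :
    Q.part v ∈ Q.parts := Q.part_mem.2 (Finset.mem_univ v)

theorem card_hub {h : ℕ} (j : Bool) (a : Fin h) : ((P h j).part (Sum.inl a)).card = h := by
  classical
  let φ : Fin h → W h := fun b => if hb : a = b then Sum.inl a else Sum.inr (⟨(a, b), hb⟩, j)
  have himg : (P h j).part (Sum.inl a) = Finset.univ.image φ := by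
    ext w
    rw [mem_P]
    simp only [Finset.mem_image, Finset.mem_univ, true_and]
    constructor
    · intro hw
      rcases w with a' | ⟨⟨⟨c, d⟩, hcd⟩, i⟩
      · simp only [lab] at hw
        have := Sum.inl_injective hw
        subst this
        exact ⟨a, by simp [φ]⟩
      · by_cases hi : i = j
        · simp only [lab, hi, if_true] at hw
          have := Sum.inl_injective hw
          subst this
          subst hi
          refine ⟨d, ?_⟩
          simp only [φ]
          rw [dif_neg hcd]
        · simp [lab, hi] at hw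
    · rintro ⟨b, rfl⟩
      by_cases hb : a = b
      · simp [φ, hb]
      · simp [φ, hb, lab]
  rw [himg, Finset.card_image_of_injective, Finset.card_univ, Fintype.card_fin]
  intro b b' hbb
  simp only [φ] at hbb
  split_ifs at hbb with h1 h2 h2
  · exact h1.symm.trans h2
  · have := Sum.inr_injective hbb
    simp at this
    exact this

theorem sep_sub {h : ℕ} (j : Bool) (p : E h) (i : Bool) (hij : i ≠ j) :
    (P h j).part (Sum.inr (p, i)) = {Sum.inr (p, i), Sum.inr (sw p, i)} := by
  ext w
  rw [mem_P]
  simp only [Finset.mem_insert, Finset.mem_singleton]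
  constructor
  · intro hw
    rcases w with a' | ⟨q, i'⟩
    · simp [lab, hij] at hw
    · by_cases hi' : i' = j
      · simp [lab, hij, hi'] at hw
      · simp only [lab, hij, hi', if_false] at hw
        have h1 := Sum.inr_injective hw
        have hii : i' = i := by
          cases i <;> cases i' <;> cases j <;> simp_all
        subst hii
        rw [Sym2.eq_iff] at h1
        rcases h1 with ⟨h1, h2⟩ | ⟨h1, h2⟩
        · left
          have : q = p := Subtype.ext (Prod.ext h1.symm h2.symm)
          rw [this]
        · right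
          have : q = sw p := Subtype.ext (Prod.ext h2.symm h1.symm)
          rw [this]
  · rintro (rfl | rfl)
    · rfl
    · simp only [lab, hij, if_false, sw]
      rw [Sym2.eq_swap]

theorem P_conn {h : ℕ} (j : Bool) :
    ∀ U ∈ (P h j).parts, ((G h).induce (U : Set (W h))).Connected := by
  intro U hU
  obtain ⟨v, hv⟩ := (P h j).nonempty_of_mem_parts hU
  rw [← (P h j).part_eq_of_mem hU hv]
  have hubc : ∀ a, ((G h).induce (((P h j).part (Sum.inl a) : Finset (W h)) : Set (W h))).Connected := by
    intro a
    apply star_conn (u := Sum.inl a) (Finset.mem_coe.2 (mem_own (P h j) (Sum.inl a)))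
    intro x hx
    rw [Finset.mem_coe, mem_P] at hx
    rcases x with a' | ⟨q, i⟩
    · left
      simp only [lab] at hx
      rw [Sum.inl_injective hx]
    · right
      by_cases hi : i = j
      · simp only [lab, hi, if_true] at hx
        exact (Sum.inl_injective hx).symm
      · simp [lab, hi] at hx
  rcases v with a | ⟨p, i⟩
  · exact hubc a
  · by_cases hi : i = j
    · have : (P h j).part (Sum.inr (p, i)) = (P h j).part (Sum.inl p.1.1) := by
        ext w
        rw [mem_P, mem_P]
        simp [lab, hi]
      rw [this]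
      exact hubc _
    · rw [sep_sub j p i hi]
      apply star_conn (u := Sum.inr (p, i)) (by simp)
      intro x hx
      simp only [Finset.coe_insert, Finset.coe_singleton, Set.mem_insert_iff,
        Set.mem_singleton_iff] at hx
      rcases hx with rfl | rfl
      · left; rfl
      · right; exact adj_partner p i

/-! ### Counting -/

/-- The parts that contain a hub. -/
def hubParts {h : ℕ} (Q : Finpartition (Finset.univ : Finset (W h))) :
    Finset (Finset (W h)) :=
  Finset.univ.image (fun a : Fin h => Q.part (Sum.inl a))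

theorem mem_hubParts {h : ℕ} (Q : Finpartition (Finset.univ : Finset (W h))) (U : Finset (W h)) :
    U ∈ hubParts Q ↔ ∃ a, Q.part (Sum.inl a) = U := by
  simp [hubParts]

theorem hubParts_sub {h : ℕ} (Q : Finpartition (Finset.univ : Finset (W h))) :
    hubParts Q ⊆ Q.parts := by
  intro U hU
  obtain ⟨a, rfl⟩ := (mem_hubParts Q U).1 hU
  exact own_mem Q _

theorem hubParts_card {h : ℕ} (Q : Finpartition (Finset.univ : Finset (W h))) :
    (hubParts Q).card ≤ h := by
  unfold hubParts
  refine Finset.card_image_le.trans ?_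
  simp

theorem hubParts_inj {h : ℕ} (Q : Finpartition (Finset.univ : Finset (W h)))
    (hc : (hubParts Q).card = h) (a b : Fin h) (hab : Q.part (Sum.inl a) = Q.part (Sum.inl b)) :
    a = b := by
  unfold hubParts at hc
  have h1 := Finset.card_image_iff.1 (hc.trans (by simp : h = (Finset.univ : Finset (Fin h)).card))
  exact h1 (Finset.mem_coe.2 (Finset.mem_univ a)) (Finset.mem_coe.2 (Finset.mem_univ b)) hab

theorem sum_split {h : ℕ} (Q : Finpartition (Finset.univ : Finset (W h))) :
    ∑ U ∈ Q.parts \ hubParts Q, U.card + ∑ U ∈ hubParts Q, U.card = Fintype.card (W h) := by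
  rw [Finset.sum_sdiff (hubParts_sub Q), Q.sum_card_parts, Finset.card_univ]

theorem card_split {h : ℕ} (Q : Finpartition (Finset.univ : Finset (W h))) :
    (Q.parts \ hubParts Q).card + (hubParts Q).card = Q.parts.card :=
  Finset.card_sdiff_add_card_eq_card (hubParts_sub Q)

theorem P_card {h : ℕ} (j : Bool) : 2 * (P h j).parts.card = h * h + h := by
  have e1 : (hubParts (P h j)).card = h := by
    unfold hubParts
    rw [Finset.card_image_of_injective, Finset.card_univ, Fintype.card_fin]
    intro a b hab
    have hb : (Sum.inl b : W h) ∈ (P h j).part (Sum.inl a) := by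
      have := mem_own (P h j) (Sum.inl b)
      simp only at hab
      rw [hab]
      exact this
    rw [mem_P] at hb
    exact Sum.inl_injective hb
  have e2 : ∑ U ∈ hubParts (P h j), U.card = h * h := by
    rw [Finset.sum_const_nat (m := h), e1]
    intro U hU
    obtain ⟨a, rfl⟩ := (mem_hubParts _ U).1 hU
    exact card_hub j a
  have e3 : ∑ U ∈ (P h j).parts \ hubParts (P h j), U.card
      = ((P h j).parts \ hubParts (P h j)).card * 2 := by
    rw [Finset.sum_const_nat (m := 2)]
    intro U hU
    rw [Finset.mem_sdiff, mem_hubParts] at hU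
    obtain ⟨hU1, hU2⟩ := hU
    obtain ⟨v, hv⟩ := (P h j).nonempty_of_mem_parts hU1
    have hv' := (P h j).part_eq_of_mem hU1 hv
    rcases v with a | ⟨p, i⟩
    · exact absurd ⟨a, hv'⟩ hU2
    · by_cases hi : i = j
      · exfalso
        apply hU2
        refine ⟨p.1.1, ?_⟩
        rw [← hv']
        ext w
        rw [mem_P, mem_P]
        simp [lab, hi]
      · rw [← hv', sep_sub j p i hi, Finset.card_pair]
        intro e
        have := Sum.inr_injective e
        exact sw_ne p (congrArg Prod.fst this).symm
  have e4 := sum_split (P h j)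
  have e5 := card_split (P h j)
  have e6 := card_W h
  rw [e2, e3] at e4
  rw [e1] at e5
  nlinarith

/-- Tight partitions. -/
structure Tight {h : ℕ} (Q : Finpartition (Finset.univ : Finset (W h))) : Prop where
  conn : ∀ U ∈ Q.parts, ((G h).induce (U : Set (W h))).Connected
  cap : ∀ U ∈ Q.parts, U.card ≤ h
  one : ∀ U ∈ Q.parts, ∀ a b, Sum.inl a ∈ U → Sum.inl b ∈ U → a = b
  two : ∀ U ∈ Q.parts, (∀ a, Sum.inl a ∉ U) → U.card = 2

/-- A connected set containing the half `(p, i)` but not its hub lies in the path or contains the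
partner and the hub of the partner. -/
theorem half_dich {h : ℕ} {U : Finset (W h)}
    (hU : ((G h).induce (U : Set (W h))).Connected) {p : E h} {i : Bool}
    (hv : Sum.inr (p, i) ∈ U) (ha : Sum.inl p.1.1 ∉ U) :
    U ⊆ {Sum.inr (p, i), Sum.inr (sw p, i)} ∨
      (Sum.inr (sw p, i) ∈ U ∧ Sum.inl p.1.2 ∈ U) := by
  by_cases hc : Sum.inr (sw p, i) ∈ U ∧ Sum.inl p.1.2 ∈ U
  · exact Or.inr hc
  · left
    have := conn_closure (S := {Sum.inr (p, i), Sum.inr (sw p, i)}) hU (v := Sum.inr (p, i))
      (by exact_mod_cast hv) (by simp) (by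
        intro x hx hxS y hy hxy
        rw [Finset.mem_coe] at hx hy
        rcases hxS with rfl | rfl
        · rcases y with a | y
          · change p.1.1 = a at hxy
            subst hxy
            exact absurd hy ha
          · change y = (sw p, i) at hxy
            subst hxy
            right; rfl
        · rcases y with a | y
          · change p.1.2 = a at hxy
            subst hxy
            exact absurd ⟨hx, hy⟩ hc
          · change y = (sw (sw p), i) at hxy
            subst hxy
            left; rfl)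
    intro x hx
    have := this (Finset.mem_coe.2 hx)
    simpa using this

theorem hubless_sub {h : ℕ} {U : Finset (W h)}
    (hU : ((G h).induce (U : Set (W h))).Connected) {p : E h} {i : Bool}
    (hv : Sum.inr (p, i) ∈ U) (ha : ∀ a, Sum.inl a ∉ U) :
    U ⊆ {Sum.inr (p, i), Sum.inr (sw p, i)} := by
  rcases half_dich hU hv (ha _) with h1 | ⟨_, h1⟩
  · exact h1
  · exact absurd h1 (ha _)

theorem pair_card {h : ℕ} (p : E h) (i : Bool) :
    ({Sum.inr (p, i), Sum.inr (sw p, i)} : Finset (W h)).card = 2 := by
  rw [Finset.card_pair]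
  intro e
  have := Sum.inr_injective e
  exact sw_ne p (congrArg Prod.fst this).symm

theorem tight_of {h : ℕ} (h3 : 3 ≤ h) (Q : Finpartition (Finset.univ : Finset (W h)))
    (hk : 2 * Q.parts.card = h * h + h)
    (hconn : ∀ U ∈ Q.parts, ((G h).induce (U : Set (W h))).Connected)
    (hcap : ∀ U ∈ Q.parts, U.card ≤ h) : Tight Q := by
  have e4 := sum_split Q
  have e5 := card_split Q
  have e6 := card_W h
  have e7 := hubParts_card Q
  have b1 : ∑ U ∈ hubParts Q, U.card ≤ (hubParts Q).card * h := by
    have := Finset.sum_le_card_nsmul (hubParts Q) (fun U => U.card) h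
      (fun U hU => hcap U (hubParts_sub Q hU))
    simpa using this
  have hless : ∀ U ∈ Q.parts \ hubParts Q, ∀ a, Sum.inl a ∉ U := by
    intro U hU a ha
    rw [Finset.mem_sdiff, mem_hubParts] at hU
    exact hU.2 ⟨a, Q.part_eq_of_mem hU.1 ha⟩
  have b2' : ∀ U ∈ Q.parts \ hubParts Q, U.card ≤ 2 := by
    intro U hU
    have hU' := (Finset.mem_sdiff.1 hU).1
    obtain ⟨v, hv⟩ := Q.nonempty_of_mem_parts hU'
    rcases v with a | ⟨p, i⟩
    · exact absurd hv (hless U hU a)
    · have := hubless_sub (hconn U hU') hv (hless U hU)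
      exact (Finset.card_le_card this).trans (pair_card p i).le
  have b2 : ∑ U ∈ Q.parts \ hubParts Q, U.card ≤ (Q.parts \ hubParts Q).card * 2 := by
    have := Finset.sum_le_card_nsmul (Q.parts \ hubParts Q) (fun U => U.card) 2 b2'
    simpa using this
  have hm : (hubParts Q).card = h := by
    by_contra hne
    have hlt : (hubParts Q).card + 1 ≤ h := by omega
    generalize (hubParts Q).card = m at *
    generalize (Q.parts \ hubParts Q).card = R at *
    generalize ∑ U ∈ hubParts Q, U.card = S1 at *
    generalize ∑ U ∈ Q.parts \ hubParts Q, U.card = S2 at *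
    have hk2 : 2 * (R + m) = h * h + h := by rw [e5]; exact hk
    obtain ⟨d, rfl⟩ : ∃ d, h = m + 1 + d := ⟨h - (m + 1), by omega⟩
    nlinarith
  refine ⟨hconn, hcap, ?_, ?_⟩
  · intro U hU a b ha hb
    apply hubParts_inj Q hm
    rw [Q.part_eq_of_mem hU ha, Q.part_eq_of_mem hU hb]
  · intro U hU hno
    have hU' : U ∈ Q.parts \ hubParts Q := by
      rw [Finset.mem_sdiff, mem_hubParts]
      refine ⟨hU, ?_⟩
      rintro ⟨a, rfl⟩
      exact hno a (mem_own Q _)
    have hsum : ∑ U ∈ Q.parts \ hubParts Q, U.card = ∑ _U ∈ Q.parts \ hubParts Q, 2 := by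
      apply le_antisymm
      · exact Finset.sum_le_sum b2'
      · rw [Finset.sum_const, smul_eq_mul]
        rw [hm] at e5 b1
        nlinarith
    exact (Finset.sum_eq_sum_iff_of_le b2').1 hsum U hU'

/-! ### `P j` has no neighbour among the tight partitions -/

theorem isolated {h : ℕ} (j : Bool) (Q : Finpartition (Finset.univ : Finset (W h)))
    (hQ : Tight Q) : ¬ Recomb (P h j) Q := by
  rintro ⟨hne, A, hA, B, hB, hAB, C, hC, D, hD, hCD, hU, hrest⟩
  -- step 1
  have step1 : ∀ p : E h, Sum.inr (p, j) ∈ Q.part (Sum.inl p.1.1) := by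
    intro p
    by_contra hcon
    set v : W h := Sum.inr (p, j) with hv
    set v' : W h := Sum.inr (sw p, j) with hv'
    have hlv : lab j v = Sum.inl p.1.1 := by simp [lab, hv]
    have hlv' : lab j v' = Sum.inl p.1.2 := by simp [lab, hv', sw]
    have hUm : Q.part v ∈ Q.parts := own_mem Q v
    have hvU : v ∈ Q.part v := mem_own Q v
    have haU : (Sum.inl p.1.1 : W h) ∉ Q.part v := by
      intro hc
      apply hcon
      rw [Q.part_eq_of_mem hUm hc]
      exact hvU
    have hv'U : v' ∈ Q.part v := by
      rcases half_dich (hQ.conn _ hUm) hvU haU with h1 | ⟨h1, _⟩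
      · have h2 : ∀ a, (Sum.inl a : W h) ∉ Q.part v := by
          intro a ha
          have := h1 ha
          simp at this
        have h3 := hQ.two _ hUm h2
        have h4 := Finset.eq_of_subset_of_card_le h1 (by rw [pair_card, h3])
        rw [h4]
        simp [hv']
      · exact h1
    have hUP : Q.part v ∉ (P h j).parts := by
      intro hc
      have h1 := (P h j).part_eq_of_mem hc hvU
      have h2 : v' ∈ (P h j).part v := by rw [h1]; exact hv'U
      rw [mem_P, hlv, hlv'] at h2
      exact p.2 (Sum.inl_injective h2)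
    -- the other new part
    have hD' : ∃ D' ∈ Q.parts, A ∪ B = Q.part v ∪ D' := by
      have h1 : Q.part v = C ∨ Q.part v = D := by
        by_contra hc
        push Not at hc
        have h2 : Q.part v ∈ Q.parts \ {C, D} := by
          simp [hUm, hc.1, hc.2]
        rw [← hrest] at h2
        exact hUP (Finset.mem_sdiff.1 h2).1
      rcases h1 with h1 | h1
      · exact ⟨D, hD, by rw [h1, hU]⟩
      · exact ⟨C, hC, by rw [h1, hU, Finset.union_comm]⟩
    obtain ⟨D', hD', hU'⟩ := hD'
    have hPP : A ∪ B = (P h j).part v ∪ (P h j).part v' := by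
      have h1 : v ∈ A ∪ B := by rw [hU']; exact Finset.mem_union_left _ hvU
      have h2 : v' ∈ A ∪ B := by rw [hU']; exact Finset.mem_union_left _ hv'U
      have hnot : ∀ T ∈ (P h j).parts, v ∈ T → v' ∈ T → False := by
        intro T hT h1 h2
        rw [← (P h j).part_eq_of_mem hT h1, mem_P, hlv, hlv'] at h2
        exact p.2 (Sum.inl_injective h2)
      rcases Finset.mem_union.1 h1 with h1 | h1
      · have h3 : v' ∈ B := by
          rcases Finset.mem_union.1 h2 with h2 | h2
          · exact (hnot A hA h1 h2).elim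
          · exact h2
        rw [(P h j).part_eq_of_mem hA h1, (P h j).part_eq_of_mem hB h3]
      · have h3 : v' ∈ A := by
          rcases Finset.mem_union.1 h2 with h2 | h2
          · exact h2
          · exact (hnot B hB h1 h2).elim
        rw [(P h j).part_eq_of_mem hB h1, (P h j).part_eq_of_mem hA h3, Finset.union_comm]
    have hsub : ∀ y, y ∈ (P h j).part v ∨ y ∈ (P h j).part v' → y ∈ Q.part v ∨ y ∈ D' := by
      intro y hy
      rw [← Finset.mem_union] at hy ⊢
      rw [← hU', hPP]
      exact hy
    have haD : (Sum.inl p.1.1 : W h) ∈ D' := by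
      rcases hsub (Sum.inl p.1.1) (Or.inl (by rw [mem_P, hlv]; rfl)) with h1 | h1
      · exact absurd h1 haU
      · exact h1
    have hbU : (Sum.inl p.1.2 : W h) ∈ Q.part v := by
      rcases hsub (Sum.inl p.1.2) (Or.inr (by rw [mem_P, hlv']; rfl)) with h1 | h1
      · exact h1
      · exact absurd (hQ.one D' hD' _ _ haD h1) p.2
    have hPb : (P h j).part v' = (P h j).part (Sum.inl p.1.2) := by
      ext w
      rw [mem_P, mem_P, hlv']
      rfl
    have hcardb : ((P h j).part v').card = h := by rw [hPb]; exact card_hub j _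
    have hy : ∃ y ∈ (P h j).part v', y ∉ Q.part v := by
      by_contra hc
      push Not at hc
      have hvn : v ∉ (P h j).part v' := by
        rw [mem_P, hlv, hlv']
        intro e
        exact p.2 (Sum.inl_injective e).symm
      have h1 : insert v ((P h j).part v') ⊆ Q.part v := by
        intro x hx
        rcases Finset.mem_insert.1 hx with rfl | hx
        · exact hvU
        · exact hc x hx
      have h2 := Finset.card_le_card h1
      rw [Finset.card_insert_of_notMem hvn, hcardb] at h2
      have h3 := hQ.cap _ hUm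
      omega
    obtain ⟨y, hyP, hyU⟩ := hy
    have hyD : y ∈ D' := by
      rcases hsub y (Or.inr hyP) with h1 | h1
      · exact absurd h1 hyU
      · exact h1
    rw [mem_P, hlv'] at hyP
    rcases y with b | ⟨q, i⟩
    · simp only [lab] at hyP
      rw [← Sum.inl_injective hyP] at hyU
      exact hyU hbU
    · by_cases hi : i = j
      · simp only [lab, hi, if_true] at hyP
        have hq1 := Sum.inl_injective hyP
        have hqD : (Sum.inl q.1.1 : W h) ∉ D' := by
          rw [← hq1]
          intro hc
          exact p.2 (hQ.one D' hD' _ _ haD hc)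
        rcases half_dich (hQ.conn D' hD') hyD hqD with h1 | ⟨_, h1⟩
        · have := h1 haD
          simp at this
        · have hq2 := hQ.one D' hD' _ _ haD h1
          have hqp : q = sw p := Subtype.ext (Prod.ext hq1.symm hq2.symm)
          subst hi
          rw [hqp] at hyU
          exact hyU hv'U
      · simp [lab, hi] at hyP
  -- step 2
  have step2 : ∀ a, Q.part (Sum.inl a) = (P h j).part (Sum.inl a) := by
    intro a
    symm
    apply Finset.eq_of_subset_of_card_le
    · intro w hw
      rw [mem_P] at hw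
      rcases w with b | ⟨q, i⟩
      · simp only [lab] at hw
        rw [Sum.inl_injective hw]
        exact mem_own Q _
      · by_cases hi : i = j
        · simp only [lab, hi, if_true] at hw
          rw [Sum.inl_injective hw, hi]
          exact step1 q
        · simp [lab, hi] at hw
    · rw [card_hub]
      exact hQ.cap _ (own_mem Q _)
  -- step 3
  apply hne
  apply P_ext
  intro v
  rcases v with a | ⟨q, i⟩
  · exact (step2 a).symm
  · by_cases hi : i = j
    · subst hi
      have h1 := step1 q
      rw [Q.part_eq_of_mem (own_mem Q _) h1, step2]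
      ext w
      rw [mem_P, mem_P]
      simp [lab]
    · have hno : ∀ a, (Sum.inl a : W h) ∉ Q.part (Sum.inr (q, i)) := by
        intro a ha
        have h1 := Q.part_eq_of_mem (own_mem Q _) ha
        have h2 := mem_own Q (Sum.inr (q, i))
        rw [← h1, step2, mem_P] at h2
        simp [lab, hi] at h2
      have h1 := hubless_sub (hQ.conn _ (own_mem Q _)) (mem_own Q (Sum.inr (q, i))) hno
      have h2 := hQ.two _ (own_mem Q _) hno
      rw [Finset.eq_of_subset_of_card_le h1 (by rw [pair_card, h2]), sep_sub j q i hi]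

/-! ### The theorem -/

theorem P_sizes {h : ℕ} (j : Bool) : ∀ U ∈ (P h j).parts, U.card = h ∨ U.card = 2 := by
  intro U hU
  obtain ⟨v, hv⟩ := (P h j).nonempty_of_mem_parts hU
  rw [← (P h j).part_eq_of_mem hU hv]
  rcases v with a | ⟨p, i⟩
  · exact Or.inl (card_hub j a)
  · by_cases hi : i = j
    · left
      have : (P h j).part (Sum.inr (p, i)) = (P h j).part (Sum.inl p.1.1) := by
        ext w
        rw [mem_P, mem_P]
        simp [lab, hi]
      rw [this]
      exact card_hub j _
    · right
      rw [sep_sub j p i hi, pair_card]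

theorem exists_adj_of_walk {V : Type*} {G : SimpleGraph V} {x y : V} (w : G.Walk x y)
    (hne : x ≠ y) : ∃ z, G.Adj x z := by
  cases w with
  | nil => exact absurd rfl hne
  | cons h _ => exact ⟨_, h⟩

theorem P_ne {h : ℕ} (h2 : 2 ≤ h) : P h false ≠ P h true := by
  intro e
  have h01 : (⟨0, by omega⟩ : Fin h) ≠ ⟨1, by omega⟩ := by
    intro e
    simp at e
  have h1 : (Sum.inr ((⟨(⟨0, by omega⟩, ⟨1, by omega⟩), h01⟩ : E h), false) : W h) ∈
      (P h false).part (Sum.inl ⟨0, by omega⟩) := by
    rw [mem_P]
    simp [lab]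
  rw [e, mem_P] at h1
  simp [lab] at h1

/-- For every real `C` there are a finite biconnected graph `G` on `n` vertices, an integer
`1 ≤ k ≤ n` and a slack `s` with `s ≥ n / k` and `s ≥ C * (n / k)` such that the configuration
space `R_s(G, k)` is disconnected: two `(k, s)`-BCPs of `G` are not joined by any sequence of
recombination moves through `(k, s)`-BCPs. -/
theorem result (C : ℝ) :
    ∃ (V : Type) (_ : Fintype V) (_ : DecidableEq V) (G : SimpleGraph V) (k : ℕ) (s : ℝ),
      Biconnected G ∧ 1 ≤ k ∧ k ≤ Fintype.card V ∧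
      (Fintype.card V : ℝ) / k ≤ s ∧ C * ((Fintype.card V : ℝ) / k) ≤ s ∧
      ¬ (configGraph G k s).Preconnected := by
  obtain ⟨h, hh⟩ : ∃ h : ℕ, 8 + 4 * |C| ≤ (h : ℝ) := ⟨_, Nat.le_ceil _⟩
  have hC : 0 ≤ |C| := abs_nonneg C
  have h8r : (8 : ℝ) ≤ h := by linarith
  have h8 : 8 ≤ h := by exact_mod_cast h8r
  set k : ℕ := (P h false).parts.card with hkdef
  have hk : 2 * k = h * h + h := P_card false
  have hN := card_W h
  have hkr : 2 * (k : ℝ) = (h : ℝ) * h + h := by exact_mod_cast hk
  have hNr : (Fintype.card (W h) : ℝ) + h = 2 * ((h : ℝ) * h) := by exact_mod_cast hN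
  have hk1 : 1 ≤ k := by nlinarith
  have hkpos : (0 : ℝ) < k := by exact_mod_cast hk1
  set N : ℝ := (Fintype.card (W h) : ℝ) with hNdef
  have hq4 : N / k ≤ 4 := by
    rw [div_le_iff₀ hkpos]
    nlinarith
  have hq0 : 0 ≤ N / k := div_nonneg (by rw [hNdef]; positivity) hkpos.le
  set q : ℝ := N / k with hq
  have hCq : C * q ≤ 4 * |C| := by
    calc C * q ≤ |C| * q := mul_le_mul_of_nonneg_right (le_abs_self C) hq0
      _ ≤ |C| * 4 := mul_le_mul_of_nonneg_left hq4 hC
      _ = 4 * |C| := by ring
  have hBCP : ∀ j, IsBCP (G h) k ((h : ℝ) - q) (P h j) := by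
    intro j
    refine ⟨?_, P_conn j, ?_⟩
    · have := P_card (h := h) j
      omega
    · intro U hU
      rw [← hNdef, ← hq, abs_le]
      rcases P_sizes j U hU with h1 | h1
      · rw [h1]
        constructor <;> linarith
      · rw [h1]
        push_cast
        constructor <;> linarith
  refine ⟨W h, inferInstance, inferInstance, G h, k, (h : ℝ) - q, biconn (by omega), hk1, ?_, ?_,
    ?_, ?_⟩
  · nlinarith
  · rw [← hNdef, ← hq]
    linarith
  · rw [← hNdef, ← hq]
    linarith
  · intro hpre
    obtain ⟨w⟩ := hpre ⟨P h false, hBCP false⟩ ⟨P h true, hBCP true⟩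
    obtain ⟨Q, hadj⟩ := exists_adj_of_walk w (fun e => P_ne (by omega) (congrArg Subtype.val e))
    have hT : Tight Q.1 := by
      apply tight_of (by omega) Q.1 (by rw [Q.2.card_parts]; exact hk) Q.2.conn
      intro U hU
      have h1 := Q.2.bal U hU
      rw [← hNdef, ← hq, abs_le] at h1
      have h2 : (U.card : ℝ) ≤ h := by linarith [h1.2]
      exact_mod_cast h2
    exact isolated false Q.1 hT hadj

end Pool.Agent.Results.MP_c7e24e_co.LargeSlackDisconnected
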